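import Pool.Agent.TH967.DP.AS

/-!
Directed polymers on `ℤ^d` with a general i.i.d. environment: a lower bound for the wandering
exponent, in an almost sure form that is uniform in the length of the polymer.
The definitions (walk, energy, partition function, polymer measure, cylinder, wandering exponent)
are in `Pool/Agent/TH967/DP/Defs.lean`.
-/

namespace Pool.Agent.Results.MP_7d29a1_pr.EscapeFromTubes

open MeasureTheory ProbabilityTheory Filter TH967.DP

/-- For every dimension `d ≥ 1`, every non-constant law of the environment with all exponential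
moments and every `β > 0`: for `κ < 1/(d+2)` and `lam < (1-dκ)/2`, almost surely, at all large
scales `l` and for all lengths `n ≥ l`, the polymer measure of `max_{i≤l} ‖S_i‖ ≤ l^κ` is at most
`exp(-l^lam)`; and the wandering exponent is at least `1/(d+2)`. -/
theorem result {d : ℕ} (hd : 1 ≤ d) {Ω : Type} [MeasurableSpace Ω] (P : Measure Ω)
    [IsProbabilityMeasure P] (ω : ℕ → (Fin d → ℤ) → Ω → ℝ)
    (hmeas : ∀ i y, Measurable (ω i y))
    (hindep : iIndepFun (fun s : ℕ × (Fin d → ℤ) => ω s.1 s.2) P)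
    (hident : ∀ i y, IdentDistrib (ω i y) (ω 1 0) P P)
    (hexp : ∀ b : ℝ, Integrable (fun x => Real.exp (b * ω 1 0 x)) P)
    (hnc : ¬ ∃ c : ℝ, ∀ᵐ x ∂P, ω 1 0 x = c) (β : ℝ) (hβ : 0 < β) :
    (∀ κ lam : ℝ, 0 < κ → κ < 1 / ((d : ℝ) + 2) → lam < (1 - d * κ) / 2 →
      ∀ᵐ x ∂P, ∀ᶠ l : ℕ in atTop, ∀ n, l ≤ n →
        polymerProb β (fun i y => ω i y x) n (cyl d n l ((l : ℝ) ^ κ)) ≤
          Real.exp (-(l : ℝ) ^ lam)) ∧
    1 / ((d : ℝ) + 2) ≤ wanderingExp P ω β := by
  have h : IsEnv P ω := ⟨hmeas, hindep, hident⟩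
  have hd2 : (0 : ℝ) < (d : ℝ) + 2 := by positivity
  refine ⟨fun κ lam hκ hκ2 hlam => ?_, nu_ge' h hd hexp hnc hβ⟩
  rw [lt_div_iff₀ hd2] at hκ2
  exact as_escape h hd hexp hnc hβ hκ hκ2 hlam

end Pool.Agent.Results.MP_7d29a1_pr.EscapeFromTubes
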